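import Pool.Agent.W739.CY.Stm

namespace Pool.Agent.W764.CY

open Pool.Agent.W739.CY

section

variable {C : Type} [DecidableEq C]

theorem spl_congr {f g : List C → C → List C → ℝ} {w : List C}
    (h : ∀ v c u, w = v ++ c :: u → f v c u = g v c u) : spl f w = spl g w := by
  induction w generalizing f g with
  | nil => rfl
  | cons x w ih =>
    simp only [spl]
    rw [h [] x w rfl]
    congr 1
    exact ih fun v c u hw => h (x :: v) c u (by rw [hw]; rfl)

theorem spl_add (f g : List C → C → List C → ℝ) (w : List C) :
    spl (fun v c u => f v c u + g v c u) w = spl f w + spl g w := by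
  induction w generalizing f g with
  | nil => simp [spl]
  | cons x w ih =>
    simp only [spl]
    rw [ih]
    ring

theorem spl_mul_left (a : ℝ) (f : List C → C → List C → ℝ) (w : List C) :
    spl (fun v c u => a * f v c u) w = a * spl f w := by
  induction w generalizing f with
  | nil => simp [spl]
  | cons x w ih =>
    simp only [spl]
    rw [ih]
    ring

theorem spl_mul_right (a : ℝ) (f : List C → C → List C → ℝ) (w : List C) :
    spl (fun v c u => f v c u * a) w = spl f w * a := by
  induction w generalizing f with
  | nil => simp [spl]
  | cons x w ih =>
    simp only [spl]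
    rw [ih]
    ring

theorem spl_snoc (f : List C → C → List C → ℝ) (w : List C) (x : C) :
    spl f (w ++ [x]) = spl (fun v c u => f v c (u ++ [x])) w + f w x [] := by
  induction w generalizing f with
  | nil => simp [spl]
  | cons y w ih =>
    simp only [spl, List.cons_append]
    rw [ih]
    ring

theorem spl_assoc (H : List C → C → List C → C → List C → ℝ) (w : List C) :
    spl (fun v c u => spl (fun v' c' u' => H v c v' c' u') u) w =
      spl (fun V c' u' => spl (fun v c v' => H v c v' c' u') V) w := by
  induction w generalizing H with
  | nil => rfl
  | cons x w ih =>
    simp only [spl]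
    rw [spl_add, ih]
    ring

theorem Gn_stab (p z : ℝ) : ∀ (n m : ℕ) (a : Option C) (w : List C) (b : Option C),
    w.length ≤ n → w.length ≤ m → Gn p z n a w b = Gn p z m a w b := by
  intro n
  induction n with
  | zero =>
    intro m a w b hn hm
    have hw : w = [] := List.length_eq_zero_iff.1 (by omega)
    subst hw
    cases m with
    | zero => rfl
    | succ m => simp [Gn, spl]
  | succ n ih =>
    intro m a w b hn hm
    cases m with
    | zero =>
      have hw : w = [] := List.length_eq_zero_iff.1 (by omega)
      subst hw
      simp [Gn, spl]
    | succ m =>
      simp only [Gn]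
      congr 2
      apply spl_congr
      intro v c u hw
      have hl : w.length = v.length + (u.length + 1) := by
        rw [hw]; simp
      rw [ih m (some c) u b (by omega) (by omega)]

theorem G_left (p z : ℝ) (a : Option C) (w : List C) (b : Option C) :
    G p z a w b = F1 p a w b + z * spl (fun v c u => F1 p a v (some c) * G p z (some c) u b) w := by
  unfold G
  cases w with
  | nil => simp [Gn, spl]
  | cons x w =>
    rw [show (x :: w).length = w.length + 1 from rfl]
    simp only [Gn]
    congr 2
    apply spl_congr
    intro v c u hw
    have hl : w.length + 1 = v.length + (u.length + 1) := by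
      have := congrArg List.length hw
      simpa using this
    rw [Gn_stab p z w.length u.length (some c) u b (by omega) le_rfl]

theorem G_right (p z : ℝ) : ∀ (n : ℕ) (a : Option C) (w : List C) (b : Option C),
    w.length ≤ n →
    G p z a w b = F1 p a w b + z * spl (fun v c u => G p z a v (some c) * F1 p (some c) u b) w := by
  intro n
  induction n with
  | zero =>
    intro a w b hn
    have hw : w = [] := List.length_eq_zero_iff.1 (by omega)
    subst hw
    simp [G, Gn, spl]
  | succ n ih =>
    intro a w b hn
    have e1 : spl (fun v c u => F1 p a v (some c) * G p z (some c) u b) w =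
        spl (fun v c u => F1 p a v (some c) * F1 p (some c) u b) w +
          z * spl (fun v c u => spl (fun v' c' u' =>
            F1 p a v (some c) * G p z (some c) v' (some c') * F1 p (some c') u' b) u) w := by
      rw [← spl_mul_left, ← spl_add]
      apply spl_congr
      intro v c u hw
      have hl : w.length = v.length + (u.length + 1) := by
        rw [hw]; simp
      rw [ih (some c) u b (by omega)]
      have e2 : spl (fun v' c' u' =>
            F1 p a v (some c) * G p z (some c) v' (some c') * F1 p (some c') u' b) u =
          F1 p a v (some c) * spl (fun v' c' u' =>
            G p z (some c) v' (some c') * F1 p (some c') u' b) u := by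
        rw [← spl_mul_left]
        apply spl_congr
        intro _ _ _ _
        ring
      rw [e2]
      ring
    have e3 : spl (fun V c' u' => G p z a V (some c') * F1 p (some c') u' b) w =
        spl (fun v c u => F1 p a v (some c) * F1 p (some c) u b) w +
          z * spl (fun V c' u' => spl (fun v c v' =>
            F1 p a v (some c) * G p z (some c) v' (some c') * F1 p (some c') u' b) V) w := by
      rw [← spl_mul_left, ← spl_add]
      apply spl_congr
      intro V c' u' hw
      rw [G_left p z a V (some c')]
      have e2 : spl (fun v c v' =>
            F1 p a v (some c) * G p z (some c) v' (some c') * F1 p (some c') u' b) V =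
          spl (fun v c v' => F1 p a v (some c) * G p z (some c) v' (some c')) V *
            F1 p (some c') u' b := by
        rw [← spl_mul_right]
      rw [e2]
      ring
    rw [G_left p z a w b, e1, e3]
    rw [spl_assoc (fun v c v' c' u' =>
      F1 p a v (some c) * G p z (some c) v' (some c') * F1 p (some c') u' b) w]

theorem T_rot (p z : ℝ) (x : C) (w : List C) : T p z (x :: w) = T p z (w ++ [x]) := by
  unfold T
  rw [spl_snoc]
  simp only [spl]
  have e1 : spl (fun v j rest => spl (fun g k u => z ^ 2 * G p z (some j) g (some k) *
        F1 p (some k) (u ++ v) (some j)) (rest ++ [x])) w =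
      spl (fun v j rest => spl (fun g k u => z ^ 2 * G p z (some j) g (some k) *
        F1 p (some k) (u ++ x :: v) (some j)) rest) w +
      z ^ 2 * spl (fun v j g => F1 p (some x) v (some j) * G p z (some j) g (some x)) w := by
    rw [← spl_mul_left, ← spl_add]
    apply spl_congr
    intro v j rest _
    rw [spl_snoc]
    congr 1
    · apply spl_congr
      intro g k u _
      rw [List.append_assoc]
      rfl
    · rw [List.nil_append]
      ring
  rw [e1]
  have e2 : spl (fun g k u => z ^ 2 * G p z (some x) g (some k) *
        F1 p (some k) (u ++ []) (some x)) w =
      z ^ 2 * spl (fun g k u => G p z (some x) g (some k) * F1 p (some k) u (some x)) w := by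
    rw [← spl_mul_left]
    apply spl_congr
    intro g k u _
    rw [List.append_nil]
    ring
  rw [e2]
  have h1 := G_left p z (some x) w (some x)
  have h2 := G_right p z w.length (some x) w (some x) le_rfl
  have h3 : z * spl (fun g k u => G p z (some x) g (some k) * F1 p (some k) u (some x)) w =
      z * spl (fun v j g => F1 p (some x) v (some j) * G p z (some j) g (some x)) w := by
    linarith
  rw [pow_two, mul_assoc, h3]
  ring

end

theorem t_ROT : S_ROT := by
  intro C _ p z _
  exact ⟨T_rot p z, fun a b w => G_left p z a w b, fun a b w => G_right p z w.length a w b le_rfl⟩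

end Pool.Agent.W764.CY
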